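import Mathlib

namespace Pool.Agent.Results.MP_d05d56_co.Rect

open Set MeasureTheory Complex

/-- removing the cuts `S` from `C` leaves pieces that all have a third of the area of `C` -/
def Equi (C S : Set ℂ) : Prop :=
  ∀ x ∈ C \ S, volume (connectedComponentIn (C \ S) x) = volume C / 3

def Z (a b p q r s : ℝ) : Set ℂ :=
  {z | (a < z.re ∧ z.re < b) ∧ p + q * z.re < z.im ∧ z.im < r + s * z.re}

theorem vol {a b p q r s : ℝ} (v : ℝ) (ab : a ≤ b) (h : ∀ x ∈ Ioo a b, p + q * x ≤ r + s * x)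
    (e : (r - p) * (b - a) + (s - q) * (b ^ 2 - a ^ 2) / 2 = v) :
    volume (Z a b p q r s) = ENNReal.ofReal v := by
  have : Z a b p q r s = measurableEquivRealProd ⁻¹'
    regionBetween (fun x => p + q * x) (fun x => r + s * x) (Ioo a b) := rfl
  have i : ∀ p q : ℝ, IntegrableOn (fun x => p + q * x) (Ioo a b) := fun p q =>
    (Continuous.integrableOn_Icc (by fun_prop)).mono_set Ioo_subset_Icc_self
  rw [this, volume_preserving_equiv_real_prod.measure_preimage_equiv, Measure.volume_eq_prod,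
    volume_regionBetween_eq_integral (i _ _) (i _ _) measurableSet_Ioo h, ← integral_Ioc_eq_integral_Ioo,
    ← intervalIntegral.integral_of_le ab, ← e]
  congr 1
  have : ((fun x => r + s * x) - fun x => p + q * x) = fun x => (r - p) + (s - q) * x := by
    funext x; simp; ring
  rw [this, intervalIntegral.integral_add (by simp) (Continuous.intervalIntegrable (by fun_prop) _ _),
    intervalIntegral.integral_const_mul]
  simp
  ring

theorem cvx (a b c : ℝ) : Convex ℝ {z : ℂ | a * z.re + b * z.im < c} :=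
  convex_halfSpace_lt ⟨fun x y => by simp; ring, fun c x => by simp; ring⟩ c

theorem cZ (a b p q r s : ℝ) : Convex ℝ (Z a b p q r s) := by
  convert ((cvx (-1) 0 (-a)).inter (cvx 1 0 b)).inter ((cvx q (-1) (-p)).inter (cvx (-s) 1 r)) using 1
  ext z
  simp only [Z, mem_inter_iff, mem_ofPred_eq]
  constructor <;> rintro ⟨⟨a, b⟩, c, d⟩ <;> refine ⟨⟨?_, ?_⟩, ?_, ?_⟩ <;> linarith

theorem comp {F O O' : Set ℂ} {x : ℂ} (h : IsOpen O) (h' : IsOpen O') (d : Disjoint O O')
    (c : F ⊆ O ∪ O') (p : IsPreconnected (F ∩ O)) (hx : x ∈ F ∩ O) :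
    connectedComponentIn F x = F ∩ O :=
  (subset_inter (connectedComponentIn_subset _ _) (isPreconnected_connectedComponentIn.subset_left_of_subset_union
    h h' d ((connectedComponentIn_subset _ _).trans c) ⟨x, mem_connectedComponentIn hx.1, hx.2⟩)).antisymm
    (p.subset_connectedComponentIn hx inter_subset_left)

def C : Set ℂ := Icc 0 1000 ×ℂ Icc 0 27

theorem vC : volume C = ENNReal.ofReal 27000 := by
  have : C = measurableEquivRealProd ⁻¹' (Icc 0 1000 ×ˢ Icc 0 27) := rfl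
  rw [this, volume_preserving_equiv_real_prod.measure_preimage_equiv, Measure.volume_eq_prod,
    Measure.prod_prod, Real.volume_Icc, Real.volume_Icc, ← ENNReal.ofReal_mul (by norm_num)]
  norm_num

theorem v3 : volume C / 3 = ENNReal.ofReal 9000 := by
  rw [vC, ← ENNReal.ofReal_ofNat 3, ← ENNReal.ofReal_div_of_pos (by norm_num)]
  norm_num

theorem cC : Convex ℝ C :=
  ((convex_Icc _ _).linear_preimage reLm).inter ((convex_Icc _ _).linear_preimage imLm)

def A : Fin 3 → ℂ := ![1000 + 3 * I, 1000 + 23 * I, 100 + 27 * I]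

def O : Fin 3 → Set ℂ := ![{z | 100 < z.re ∧ 29 / 3 + z.re / 75 < z.im},
  {z | 107 / 9 - 2 / 225 * z.re < z.im ∧ z.im < 29 / 3 + z.re / 75},
  {z | z.re < 100 ∨ z.im < 107 / 9 - 2 / 225 * z.re}]

theorem oO (i) : IsOpen (O i) := by
  fin_cases i
  · exact IsOpen.and (isOpen_lt (by fun_prop) (by fun_prop)) (isOpen_lt (by fun_prop) (by fun_prop))
  · exact IsOpen.and (isOpen_lt (by fun_prop) (by fun_prop)) (isOpen_lt (by fun_prop) (by fun_prop))
  · exact IsOpen.union (isOpen_lt (f := fun z : ℂ => z.re) (by fun_prop) (by fun_prop))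
      (isOpen_lt (f := fun z : ℂ => z.im) (by fun_prop) (by fun_prop))

theorem dO : Pairwise (Function.onFun Disjoint O) := fun i j h => by
  refine disjoint_left.2 fun z h1 h2 => ?_
  fin_cases i <;> fin_cases j <;> simp [O] at h h1 h2 <;> grind

theorem FO : C \ ⋃ i, segment ℝ (100 + 11 * I) (A i) = C ∩ ⋃ i, O i := by
  ext z
  refine and_congr_right fun ⟨⟨a, b⟩, c, d⟩ => ⟨fun h => ?_, ?_⟩
  · by_contra k
    simp only [mem_iUnion, not_exists, Fin.forall_fin_succ, O, Matrix.cons_val_zero,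
      Matrix.cons_val_succ, mem_ofPred_eq, not_and, not_or, not_lt] at k
    obtain ⟨k1, k2, ⟨k3, k4⟩, -⟩ := k
    refine h (mem_iUnion.2 ?_)
    rcases k4.eq_or_lt with e | k4
    · refine ⟨0, (1000 - z.re) / 900, (z.re - 100) / 900, by linarith, by linarith, by ring, ?_⟩
      apply Complex.ext <;> simp [A] <;> linarith
    rcases k3.eq_or_lt with e | k3
    · refine ⟨2, (27 - z.im) / 16, (z.im - 11) / 16, by linarith, by linarith, by ring, ?_⟩
      apply Complex.ext <;> simp [A] <;> linarith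
    · refine ⟨1, (1000 - z.re) / 900, (z.re - 100) / 900, by linarith, by linarith, by ring, ?_⟩
      apply Complex.ext <;> simp [A] <;> linarith [k1 k3, k2 k4]
  · simp only [mem_iUnion]
    rintro ⟨i, h⟩ ⟨j, s, t, s0, t0, st, rfl⟩
    fin_cases i <;> fin_cases j <;> simp [O, A] at h <;> grind

theorem vO (i) : ENNReal.ofReal 9000 ≤ volume (C ∩ O i) := by
  fin_cases i
  · rw [← vol (a := 100) (b := 1000) (p := 29 / 3) (q := 1 / 75) (r := 27) (s := 0) _ (by norm_num)
      (fun x h => by linarith [h.2]) (by norm_num)]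
    refine measure_mono fun z ⟨⟨a, b⟩, c, d⟩ => ⟨⟨⟨?_, ?_⟩, ?_, ?_⟩, ?_, ?_⟩ <;> linarith
  · rw [← vol (a := 100) (b := 1000) (p := 107 / 9) (q := -2 / 225) (r := 29 / 3) (s := 1 / 75) _
      (by norm_num) (fun x h => by linarith [h.1]) (by norm_num)]
    refine measure_mono fun z ⟨⟨a, b⟩, c, d⟩ => ⟨⟨⟨?_, ?_⟩, ?_, ?_⟩, ?_, ?_⟩ <;> linarith
  · rw [show (9000 : ℝ) = 2700 + 6300 by norm_num, ENNReal.ofReal_add (by norm_num) (by norm_num),
      ← vol (a := 0) (b := 100) (p := 0) (q := 0) (r := 27) (s := 0) _ (by norm_num)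
      (fun x h => by norm_num) (by norm_num),
      ← vol (a := 100) (b := 1000) (p := 0) (q := 0) (r := 107 / 9) (s := -2 / 225) _ (by norm_num)
      (fun x h => by linarith [h.2]) (by norm_num), ← measure_union₀' ((cZ ..).nullMeasurableSet volume)
        (disjoint_left.2 fun z (h : z ∈ Z _ _ _ _ _ _) (k : z ∈ Z _ _ _ _ _ _) =>
          h.1.2.not_gt k.1.1).aedisjoint]
    refine measure_mono ?_
    rintro z (⟨⟨a, b⟩, c, d⟩ | ⟨⟨a, b⟩, c, d⟩)
    · refine ⟨⟨⟨?_, ?_⟩, ?_, ?_⟩, .inl ?_⟩ <;> linarith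
    · refine ⟨⟨⟨?_, ?_⟩, ?_, ?_⟩, .inr ?_⟩ <;> linarith

theorem pO (i) : IsPreconnected (C ∩ O i) := by
  fin_cases i
  · convert (cC.inter ((cvx (-1) 0 (-100)).inter (cvx (1 / 75) (-1) (-29 / 3)))).isPreconnected using 2
    ext z
    simp only [O, Fin.zero_eta, Matrix.cons_val_zero, mem_inter_iff, mem_ofPred_eq]
    constructor <;> rintro ⟨a, b⟩ <;> constructor <;> linarith
  · convert (cC.inter ((cvx (-2 / 225) (-1) (-107 / 9)).inter
      (cvx (-1 / 75) 1 (29 / 3)))).isPreconnected using 2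
    ext z
    simp only [O, Fin.mk_one, Matrix.cons_val_one, Matrix.cons_val_zero, mem_inter_iff, mem_ofPred_eq]
    constructor <;> rintro ⟨a, b⟩ <;> constructor <;> linarith
  · convert (cC.inter (cvx 1 0 100)).isPreconnected.union 0 (by simp [C, mem_reProdIm])
      (by simp [C, mem_reProdIm]) (cC.inter (cvx (2 / 225) 1 (107 / 9))).isPreconnected using 1
    rw [← inter_union_distrib_left]
    congr 1
    ext z
    simp only [O, Fin.reduceFinMk, Matrix.cons_val, mem_union, mem_ofPred_eq]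
    constructor <;> rintro (a | a) <;> first | (left; linarith) | (right; linarith)

theorem far {a B₁ B₂ : ℂ} (p q r s v : ℝ) (hv : 9000 < v) (h : ∀ x ∈ Ioo (200 : ℝ) 1000, p + q * x ≤ r + s * x)
    (e : (r - p) * (1000 - 200) + (s - q) * (1000 ^ 2 - 200 ^ 2) / 2 = v)
    (k : Z 200 1000 p q r s ⊆ C \ (segment ℝ a B₁ ∪ segment ℝ a B₂)) :
    ¬Equi C (segment ℝ a B₁ ∪ segment ℝ a B₂) := fun E => by
  have w := vol v (by norm_num) h e
  obtain ⟨x, hx⟩ := nonempty_of_measure_ne_zero (w.trans_ne (by simp; linarith))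
  have := measure_mono (μ := volume) ((cZ ..).isPreconnected.subset_connectedComponentIn hx k)
  rw [E x (k hx), w, v3, ENNReal.ofReal_le_ofReal_iff (by norm_num)] at this
  linarith

theorem nb {z : ℂ} (d : ℝ) (h : |z.re| ≤ d) (k : |z.im| ≤ 27) (hd : 800 ≤ d) : ‖z‖ ≤ d + 1 := by
  rw [← sq_le_sq₀ (by positivity) (by linarith), Complex.sq_norm, normSq_apply]
  nlinarith [abs_le.1 h, abs_le.1 k]

theorem result : ∃ C : Set ℂ, IsCompact C ∧ Convex ℝ C ∧ ∃ P ∈ interior C, ∃ A : Fin 3 → ℂ,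
    (∀ i, A i ∈ frontier C) ∧ Equi C (⋃ i, segment ℝ P (A i)) ∧
    ∀ i, ∀ B₁ ∈ frontier C, ∀ B₂ ∈ frontier C,
      Equi C (segment ℝ (A i) B₁ ∪ segment ℝ (A i) B₂) →
        ‖A i - B₁‖ + ‖A i - B₂‖ < ∑ j, ‖P - A j‖ := by
  have kC : IsCompact C := isCompact_Icc.reProdIm isCompact_Icc
  refine ⟨C, kC, cC, 100 + 11 * I, ?_, A, fun i => ?_, ?_, fun i B₁ h₁ B₂ h₂ E => ?_⟩
  · simp [C, interior_reProdIm, mem_reProdIm]
    norm_num
  · rw [kC.isClosed.frontier_eq]
    fin_cases i <;> simp [C, A, interior_reProdIm, mem_reProdIm] <;> norm_num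
  · rw [Equi, FO, v3]
    rintro x ⟨hx, h⟩
    obtain ⟨i, h⟩ := mem_iUnion.1 h
    have e : (C ∩ ⋃ i, O i) ∩ O i = C ∩ O i := by
      rw [inter_assoc, inter_eq_right.2 (subset_iUnion O i)]
    rw [comp (O' := ⋃ j ∈ ({i}ᶜ : Set _), O j) (oO i) (isOpen_biUnion fun j _ => oO j)
      (disjoint_iUnion₂_right.2 fun j hj => dO (Ne.symm hj)) ?_ (e ▸ pO i) (e ▸ ⟨hx, h⟩), e]
    · have s : ∑ i, volume (C ∩ O i) ≤ ENNReal.ofReal 27000 := by
        rw [← vC, ← tsum_fintype (L := .unconditional _), ← measure_iUnion (dO.mono fun i j h =>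
          h.mono inter_subset_right inter_subset_right) fun i =>
          kC.measurableSet.inter (oO i).measurableSet]
        exact measure_mono (iUnion_subset fun _ => inter_subset_left)
      refine le_antisymm ?_ (vO i)
      rw [← Finset.add_sum_erase _ _ (Finset.mem_univ i)] at s
      have t := Finset.card_nsmul_le_sum (Finset.univ.erase i) _ _ fun j _ => vO j
      rw [Finset.card_erase_of_mem (Finset.mem_univ i), Finset.card_fin] at t
      refine ENNReal.le_of_add_le_add_right ?_ ((add_le_add le_rfl t).trans (s.trans_eq ?_))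
      · simp [ENNReal.mul_eq_top]
      · simp
        norm_num
    · rintro z ⟨-, h⟩
      obtain ⟨j, h⟩ := mem_iUnion.1 h
      by_cases k : j = i
      exacts [.inl (k ▸ h), .inr (mem_biUnion k h)]
  have s : 1816 ≤ ∑ j, ‖100 + 11 * I - A j‖ := by
    have a := abs_re_le_norm (100 + 11 * I - A 0)
    have b := abs_re_le_norm (100 + 11 * I - A 1)
    have c := abs_im_le_norm (100 + 11 * I - A 2)
    rw [Fin.sum_univ_three]
    have d : |(100 + 11 * I - A 2).im| = 16 := by simp [A]; norm_num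
    have e : |(100 + 11 * I - A 1).re| = 900 := by simp [A]; norm_num
    have f : |(100 + 11 * I - A 0).re| = 900 := by simp [A]; norm_num
    linarith
  obtain ⟨⟨a1, a2⟩, a3, a4⟩ := kC.isClosed.frontier_subset h₁
  obtain ⟨⟨b1, b2⟩, b3, b4⟩ := kC.isClosed.frontier_subset h₂
  refine lt_of_lt_of_le ?_ s
  have n : ∀ (i : Fin 3) (B : ℂ) (d : ℝ), 0 ≤ B.im → B.im ≤ 27 → 800 ≤ d → |(A i).re - B.re| ≤ d →
      ‖A i - B‖ ≤ d + 1 := fun i B d h1 h2 h3 h4 => nb d h4 (by
    fin_cases i <;> simp [A, abs_le] <;> constructor <;> linarith) h3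
  have m : ∀ i : Fin 3, (A i).re = 1000 → 200 ≤ B₁.re ∨ 200 ≤ B₂.re → ‖A i - B₁‖ + ‖A i - B₂‖ < 1816 := by
    rintro i h (k | k)
    · linarith [n i B₁ 800 a3 a4 le_rfl (by rw [h, abs_le]; constructor <;> linarith),
        n i B₂ 1000 b3 b4 (by norm_num) (by rw [h, abs_le]; constructor <;> linarith)]
    · linarith [n i B₂ 800 b3 b4 le_rfl (by rw [h, abs_le]; constructor <;> linarith),
        n i B₁ 1000 a3 a4 (by norm_num) (by rw [h, abs_le]; constructor <;> linarith)]
  fin_cases i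
  · refine m 0 (by simp [A]) (by_contra fun k => far 33 (-3 / 100) 27 0 9600 (by norm_num)
      (fun x h => by linarith [h.1]) (by norm_num) (fun z ⟨⟨a, b⟩, c, d⟩ => ⟨⟨⟨?_, ?_⟩, ?_, ?_⟩, ?_⟩) E)
    any_goals linarith
    push Not at k
    rintro (⟨s, t, s0, t0, st, rfl⟩ | ⟨s, t, s0, t0, st, rfl⟩) <;> simp [A] at c <;> nlinarith
  · refine m 1 (by simp [A]) (by_contra fun k => far 0 0 (-23 / 4) (23 / 800) 9200 (by norm_num)
      (fun x h => by linarith [h.1]) (by norm_num) (fun z ⟨⟨a, b⟩, c, d⟩ => ⟨⟨⟨?_, ?_⟩, ?_, ?_⟩, ?_⟩) E)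
    any_goals linarith
    push Not at k
    rintro (⟨s, t, s0, t0, st, rfl⟩ | ⟨s, t, s0, t0, st, rfl⟩) <;> simp [A] at d <;> nlinarith
  · change ‖A 2 - B₁‖ + ‖A 2 - B₂‖ < 1816
    linarith [n 2 B₁ 900 a3 a4 (by norm_num) (by simp [A, abs_le]; constructor <;> linarith),
      n 2 B₂ 900 b3 b4 (by norm_num) (by simp [A, abs_le]; constructor <;> linarith)]

end Pool.Agent.Results.MP_d05d56_co.Rect
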